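import Pool.Agent.Q261.HT.NR

/-!
# Project HT of helper99: the state sum of the network (job HT-NZ), by helper261
-/

set_option autoImplicit false

namespace Pool.Agent.Q261.HT

open Finset Filter Topology
open Pool.Agent.Q99.HT
open Pool.Agent.Q99.FAL (Pc Ty Val Pri Pos AS Sol Out c6 fV n1 n2 cor dn up wd stp cls zz IsLat nV toR
  eij S_SO S_OZ)
open Pool.Agent.Q99.KN (Wk Fk S_PF S_WR S_SY)
open Pool.Agent.Q224.FAL (Sol_cor n12' Out_13 Out_02 sol_add sol_smul sol_cast lat eij_cor)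

/-- six angles with given corners -/
def xq (β : Bool) (M : ℤ) (q : Fin 3 → ℤ) : Fin 6 → ℤ :=
  bf β ![q 0, q 1, M - q 0 - q 1 - q 2, q 2, 0, 0]

theorem cv_xq (β : Bool) (M : ℤ) (q : Fin 3 → ℤ) : cv β (xq β M q) = q := by
  cases β
  · funext j
    fin_cases j
    · rfl
    · show q 1 + 0 = q 1
      ring
    · rfl
  · funext j
    fin_cases j
    · rfl
    · show q 1 + 0 = q 1
      ring
    · rfl

/-- the corners determine the fourth corner -/
theorem cor_of_cv {β : Bool} {x y : Fin 6 → ℤ} (h : ∀ i, cv β x i = cv β y i)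
    (hs : n1 x + n2 x = n1 y + n2 y) : cor x = cor y := by
  have hs' : x 0 + x 1 + x 2 + (x 3 + x 4 + x 5) = y 0 + y 1 + y 2 + (y 3 + y 4 + y 5) := hs
  have h0 : x 0 = y 0 := h 0
  have h2 : x 3 = y 3 := h 2
  cases β with
  | true =>
    have h1 : x 1 + x 4 = y 1 + y 4 := h 1
    funext j
    fin_cases j
    · exact h0
    · exact h1
    · exact h2
    · show x 2 + x 5 = y 2 + y 5
      linarith
  | false =>
    have h1 : x 2 + x 5 = y 2 + y 5 := h 1
    funext j
    fin_cases j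
    · exact h0
    · show x 1 + x 4 = y 1 + y 4
      linarith
    · exact h2
    · exact h1

theorem n12_xq (β : Bool) (M : ℤ) (q : Fin 3 → ℤ) : n1 (xq β M q) + n2 (xq β M q) = M := by
  cases β
  · show q 0 + (M - q 0 - q 1 - q 2) + q 1 + (q 2 + 0 + 0) = M
    ring
  · show q 0 + q 1 + (M - q 0 - q 1 - q 2) + (q 2 + 0 + 0) = M
    ring

theorem xq_45 (β : Bool) (M : ℤ) (q : Fin 3 → ℤ) : xq β M q 4 = 0 ∧ xq β M q 5 = 0 := by
  cases β <;> exact ⟨rfl, rfl⟩

/-- six angles with `x 4 = x 5 = 0` are determined by the corners -/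
theorem eq_xq {β : Bool} {M : ℤ} {x : Fin 6 → ℤ} (h4 : x 4 = 0) (h5 : x 5 = 0)
    (hs : n1 x + n2 x = M) : x = xq β M (cv β x) := by
  have hs' : x 0 + x 1 + x 2 + (x 3 + x 4 + x 5) = M := hs
  cases β with
  | true =>
    funext j
    fin_cases j
    · rfl
    · show x 1 = x 1 + x 4
      rw [h4, add_zero]
    · show x 2 = M - x 0 - (x 1 + x 4) - x 3
      linarith
    · rfl
    · exact h4
    · exact h5
  | false =>
    funext j
    fin_cases j
    · rfl
    · show x 1 = M - x 0 - (x 2 + x 5) - x 3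
      linarith
    · show x 2 = x 2 + x 5
      rw [h5, add_zero]
    · rfl
    · exact h4
    · exact h5

theorem xq_bd {N : ℕ} (β : Bool) {q : Fin 3 → ℤ} (h : Ps N q) (i : Fin 6) :
    0 ≤ xq β ((N : ℤ) - 1) q i ∧ xq β ((N : ℤ) - 1) q i < N := by
  obtain ⟨h0, h1, h2, h3⟩ := h
  cases β
  · fin_cases i
    · show 0 ≤ q 0 ∧ q 0 < N
      constructor <;> linarith
    · show 0 ≤ (N : ℤ) - 1 - q 0 - q 1 - q 2 ∧ (N : ℤ) - 1 - q 0 - q 1 - q 2 < N
      constructor <;> linarith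
    · show 0 ≤ q 1 ∧ q 1 < N
      constructor <;> linarith
    · show 0 ≤ q 2 ∧ q 2 < N
      constructor <;> linarith
    · show (0 : ℤ) ≤ 0 ∧ (0 : ℤ) < N
      constructor <;> linarith
    · show (0 : ℤ) ≤ 0 ∧ (0 : ℤ) < N
      constructor <;> linarith
  · fin_cases i
    · show 0 ≤ q 0 ∧ q 0 < N
      constructor <;> linarith
    · show 0 ≤ q 1 ∧ q 1 < N
      constructor <;> linarith
    · show 0 ≤ (N : ℤ) - 1 - q 0 - q 1 - q 2 ∧ (N : ℤ) - 1 - q 0 - q 1 - q 2 < N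
      constructor <;> linarith
    · show 0 ≤ q 2 ∧ q 2 < N
      constructor <;> linarith
    · show (0 : ℤ) ≤ 0 ∧ (0 : ℤ) < N
      constructor <;> linarith
    · show (0 : ℤ) ≤ 0 ∧ (0 : ℤ) < N
      constructor <;> linarith

/-- the corners of six non-negative angles -/
theorem Ps_cv {N : ℕ} (β : Bool) {x : Fin 6 → ℤ} (h : ∀ i, 0 ≤ x i)
    (hs : n1 x + n2 x = (N : ℤ) - 1) : Ps N (cv β x) := by
  have hs' : x 0 + x 1 + x 2 + (x 3 + x 4 + x 5) = (N : ℤ) - 1 := hs
  have h0 := h 0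
  have h1 := h 1
  have h2 := h 2
  have h3 := h 3
  have h4 := h 4
  have h5 := h 5
  cases β
  · show 0 ≤ x 0 ∧ 0 ≤ x 2 + x 5 ∧ 0 ≤ x 3 ∧ x 0 + (x 2 + x 5) + x 3 < N
    refine ⟨h0, by linarith, h3, by linarith⟩
  · show 0 ≤ x 0 ∧ 0 ≤ x 1 + x 4 ∧ 0 ≤ x 3 ∧ x 0 + (x 1 + x 4) + x 3 < N
    refine ⟨h0, by linarith, h3, by linarith⟩

/-- the weight of a region depends only on the corners -/
theorem tp_xq (hPF : S_PF) (hWR : S_WR) (hSY : S_SY) {N : ℕ} (hN : 0 < N) (w : ℤ) (β : Bool)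
    {q : Fin 3 → ℤ} (h : Ps N q) : tp N w (xq β ((N : ℤ) - 1) q) = Fq N w q := by
  unfold tp Fq
  rw [if_pos (xq_45 β _ q), if_pos h]
  cases β with
  | true => rfl
  | false =>
    show Fk N w (q 0).toNat ((N : ℤ) - 1 - q 0 - q 1 - q 2).toNat (q 2).toNat = _
    obtain ⟨h0, h1, h2, h3⟩ := h
    have e1 : ((N : ℤ) - 1 - q 0 - q 1 - q 2).toNat =
        N - 1 - (q 0).toNat - (q 1).toNat - (q 2).toNat := by omega
    have e2 : (q 0).toNat + (q 1).toNat + (q 2).toNat < N := by omega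
    rw [e1]
    unfold Fk
    refine Finset.sum_congr rfl fun k _ => ?_
    congr 1
    funext z
    rw [hSY hPF hWR N hN z _ _ _ e2]

theorem task_NZ : S_NZ := by
  classical
  intro hPF hWR hSY D hV hP hD a hMx d β Y hY N hN w
  have hSO := Pool.Agent.Q237.FAL.task_SO
  have hOZ := Pool.Agent.Q237.FAL.task_OZ
  obtain ⟨a0, ha0, hq0⟩ := hY.q0
  choose δ hδS hδE using hY.E1
  set L := lat hSO D a0 ha0.1 with hL
  have hLmem : ∀ {x : Fin D.length → Fin 6 → ℤ}, x ∈ L ↔ So D x 0 := Iff.rfl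
  -- the corners of the lattice point `t`
  have hYq : ∀ (t : Fin d → ℤ) (s : Fin D.length) (i : Fin 3),
      Y.q N t s i = cv (β s) ((((N : ℤ) - 1) • a0 + ∑ j, t j • δ j) s) i := by
    intro t s i
    have e1 : (((N : ℤ) - 1) • a0 + ∑ j, t j • δ j) s =
        ((N : ℤ) - 1) • a0 s + ∑ j, t j • δ j s := by
      rw [Pi.add_apply, Finset.sum_apply]
      rfl
    rw [e1, cv_add, cv_smul, cv_sum, ← hq0 s]
    unfold Nw.q
    simp only [hδE]
  have hyS : ∀ t : Fin d → ℤ, Sol D (((N : ℤ) - 1) • a0 + ∑ j, t j • δ j) [0, 0] ((N : ℤ) - 1) := by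
    intro t
    have h1 : (∑ j, t j • δ j) ∈ L := L.sum_mem fun j _ => L.smul_mem _ (hδS j)
    have h2 := sol_add hSO (sol_smul hSO ((N : ℤ) - 1) ha0.1) (hLmem.mp h1).1
    simpa using h2
  -- the angles of the lattice point `t`
  have hxS : ∀ t : Fin d → ℤ, Sol D (fun s => xq (β s) ((N : ℤ) - 1) (Y.q N t s)) [0, 0]
      ((N : ℤ) - 1) := by
    intro t
    refine Sol_cor D _ _ _ _ (fun s => ?_) (hyS t)
    refine cor_of_cv (β := β s) (fun i => ?_) ?_
    · rw [← hYq, cv_xq]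
    · rw [n12_xq]
      exact ((hSO.1 ℤ D _ [0, 0] _).mp (hyS t)).1 s
  -- both sides as sums over subtypes
  let P : (Fin D.length → Fin 6 → Fin N) → Prop := fun a =>
    Sol D (fun k => zz (a k)) [0, 0] ((N : ℤ) - 1) ∧ ∀ k, zz (a k) 4 = 0 ∧ zz (a k) 5 = 0
  let Q : (Fin d → ℤ) → Prop := fun t => ∀ s, Ps N (Y.q N t s)
  let g : {t // Q t} → {a // P a} := fun t =>
    ⟨fun s i => ⟨(xq (β s) ((N : ℤ) - 1) (Y.q N t.1 s) i).toNat, by
      have := xq_bd (β s) (t.2 s) i
      omega⟩, by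
      have e : (fun k => zz (fun i => (⟨(xq (β k) ((N : ℤ) - 1) (Y.q N t.1 k) i).toNat, by
          have := xq_bd (β k) (t.2 k) i
          omega⟩ : Fin N))) = fun k => xq (β k) ((N : ℤ) - 1) (Y.q N t.1 k) := by
        funext k i
        show ((xq (β k) ((N : ℤ) - 1) (Y.q N t.1 k) i).toNat : ℤ) = _
        rw [Int.toNat_of_nonneg (xq_bd (β k) (t.2 k) i).1]
      refine ⟨?_, fun k => ?_⟩
      · rw [e]
        exact hxS t.1
      · have ek := congrFun e k
        rw [ek]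
        exact xq_45 _ _ _⟩
  have hg : ∀ (t : {t // Q t}) (s : Fin D.length),
      zz ((g t).1 s) = xq (β s) ((N : ℤ) - 1) (Y.q N t.1 s) := by
    intro t s
    funext i
    show ((xq (β s) ((N : ℤ) - 1) (Y.q N t.1 s) i).toNat : ℤ) = _
    rw [Int.toNat_of_nonneg (xq_bd (β s) (t.2 s) i).1]
  have hgi : Function.Injective g := by
    intro t t' h
    have h1 : ∀ s i, Y.q N t.1 s i = Y.q N t'.1 s i := by
      intro s i
      have h2 := hg t s
      rw [h, hg t' s] at h2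
      rw [← cv_xq (β s) ((N : ℤ) - 1) (Y.q N t.1 s), ← h2, cv_xq]
    have h3 := hY.inj (fun j => ((t.1 j - t'.1 j : ℤ) : ℝ)) (fun s i => by
      have h4 : ∑ j, (t.1 j - t'.1 j) * Y.E j s i = 0 := by
        have h5 := h1 s i
        unfold Nw.q at h5
        simp only [sub_mul, Finset.sum_sub_distrib]
        linarith
      exact_mod_cast h4)
    apply Subtype.ext
    funext j
    have h6 := congrFun h3 j
    have h7 : ((t.1 j - t'.1 j : ℤ) : ℝ) = 0 := h6
    have h8 : t.1 j - t'.1 j = 0 := by exact_mod_cast h7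
    linarith
  have hgs : Function.Surjective g := by
    rintro ⟨a', h1, h2⟩
    have hn : ∀ k i, (0 : ℤ) ≤ zz (a' k) i := fun k i => by unfold zz; positivity
    have hout := hOZ.2 D 1 hV (fun k => zz (a' k)) [0, 0] _ rfl (by simp) hn h1
    have hsum := ((hSO.1 ℤ D _ [0, 0] _).mp h1).1
    set x : Fin D.length → Fin 6 → ℤ := fun k => zz (a' k) with hx
    have hδ : So D (x - ((N : ℤ) - 1) • a0) 0 := by
      refine ⟨?_, fun k i ho => ?_⟩
      · have h4 := sol_add hSO h1 (sol_smul hSO (-((N : ℤ) - 1)) ha0.1)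
        have e : x + (-((N : ℤ) - 1)) • a0 = x - ((N : ℤ) - 1) • a0 := by
          rw [neg_smul]
          exact (sub_eq_add_neg _ _).symm
        rw [e] at h4
        have e2 : (N : ℤ) - 1 + -((N : ℤ) - 1) * 1 = 0 := by ring
        rw [e2] at h4
        exact h4
      · rw [Pi.sub_apply, Pi.sub_apply, Pi.smul_apply, Pi.smul_apply, ha0.2 k i ho, smul_zero,
          sub_zero]
        exact hout k i ho
    obtain ⟨t, ht, -⟩ := hY.E2 _ hδ
    have hq : ∀ s, cv (β s) (x s) = Y.q N t s := by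
      intro s
      funext i
      have h5 := ht s i
      have e1 : (x - ((N : ℤ) - 1) • a0) s = x s + (-((N : ℤ) - 1)) • a0 s := by
        rw [Pi.sub_apply, Pi.smul_apply, neg_smul, sub_eq_add_neg]
      rw [e1, cv_add, cv_smul] at h5
      unfold Nw.q
      rw [hq0 s]
      linarith
    have hQ : Q t := by
      intro s
      rw [← hq s]
      exact Ps_cv (β s) (hn s) (hsum s)
    refine ⟨⟨t, hQ⟩, ?_⟩
    apply Subtype.ext
    funext s i
    apply Fin.ext
    have h6 := congrFun (hg ⟨t, hQ⟩ s) i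
    have h7 : xq (β s) ((N : ℤ) - 1) (Y.q N t s) = x s := by
      rw [← hq s]
      exact (eq_xq (h2 s).1 (h2 s).2 (hsum s)).symm
    rw [h7] at h6
    have h8 : (((g ⟨t, hQ⟩).1 s i : ℕ) : ℤ) = ((a' s i : ℕ) : ℤ) := h6
    exact_mod_cast h8
  let e : {t // Q t} ≃ {a // P a} := Equiv.ofBijective g ⟨hgi, hgs⟩
  -- the left side
  have hl : ZD N D w = ∑ a : {a // P a}, ∏ k, tp N (w k) (zz (a.1 k)) := by
    unfold ZD
    rw [← Finset.sum_subtype (Finset.univ.filter P) (p := P) (by simp)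
      (fun a' => ∏ k, tp N (w k) (zz (a' k))), Finset.sum_filter]
    refine Finset.sum_congr rfl fun a' _ => ?_
    by_cases h1 : Sol D (fun k => zz (a' k)) [0, 0] ((N : ℤ) - 1)
    · by_cases h2 : ∀ k, zz (a' k) 4 = 0 ∧ zz (a' k) 5 = 0
      · rw [if_pos h1, if_pos (show P a' from ⟨h1, h2⟩)]
      · rw [if_pos h1, if_neg (show ¬ P a' from fun h => h2 h.2)]
        push Not at h2
        obtain ⟨k, hk⟩ := h2
        refine Finset.prod_eq_zero (Finset.mem_univ k) ?_
        unfold tp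
        rw [if_neg]
        rintro ⟨h3, h4⟩
        exact hk h3 h4
    · rw [if_neg h1, if_neg (show ¬ P a' from fun h => h1 h.1)]
  have hr : Y.Z N w = ∑' t : {t // Q t}, ∏ s, Fq N (w s) (Y.q N t.1 s) := by
    unfold Nw.Z
    refine (tsum_subtype_eq_of_support_subset (s := {t | Q t}) ?_).symm
    intro t ht
    by_contra hcon
    have hcon' : ¬ ∀ s, Ps N (Y.q N t s) := hcon
    push Not at hcon'
    obtain ⟨s, hs⟩ := hcon'
    refine ht (Finset.prod_eq_zero (Finset.mem_univ s) ?_)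
    unfold Fq
    rw [if_neg hs]
  have h9 : ∑ a' : {a // P a}, ∏ k, tp N (w k) (zz (a'.1 k)) =
      ∑' a' : {a // P a}, ∏ k, tp N (w k) (zz (a'.1 k)) := (tsum_fintype _).symm
  rw [hl, hr, h9, ← e.tsum_eq]
  refine tsum_congr fun t => ?_
  refine Finset.prod_congr rfl fun s _ => ?_
  show tp N (w s) (zz ((g t).1 s)) = _
  rw [hg t s]
  exact tp_xq hPF hWR hSY hN (w s) (β s) (t.2 s)

end Pool.Agent.Q261.HT
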