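import Pool.Agent.Q99.HT.Stm5
import Pool.Agent.Q224.FAL.GD
import Pool.Agent.Q299.FAL.DIM
import Pool.Agent.Q299.FAL.CN
import Pool.Agent.Q237.FAL.OZ
import Pool.Agent.Q237.FAL.SO
import Pool.Agent.Q237.FAL.SUR
import Pool.Agent.Q237.FAL.NC

/-!
# Project HT of helper99: the number of the variables (job HT-NR), by helper261
-/

set_option autoImplicit false

namespace Pool.Agent.Q261.HT

open Finset Filter Topology
open Pool.Agent.Q99.HT
open Pool.Agent.Q99.FAL (Pc Ty Val Pri Pos AS Sol Out c6 fV n1 n2 cor dn up wd stp cls zz IsLat nV toR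
  eij S_SO S_OZ)
open Pool.Agent.Q224.FAL (Sol_cor n12' Out_13 Out_02 sol_add sol_smul sol_cast lat eij_cor)

/-! ### zeros of a positive angle structure -/

/-- an angle vanishes iff its corner is outer -/
theorem pos_zero {D : List Pc} (hV : Val D 1) {a : Fin D.length → Fin 6 → ℝ} (ha : Pos D a)
    (k : Fin D.length) (i : Fin 6) : a k i = 0 ↔ Out D 1 k (c6 i) := by
  constructor
  · intro h
    by_contra hcon
    have := ha.pos k i hcon
    linarith
  · exact Pool.Agent.Q237.FAL.task_OZ.1 D 1 hV a [0, 0] 1 rfl (by simp) ha.nonneg ha.sol k i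

theorem pos_z14 {D : List Pc} (hV : Val D 1) {a : Fin D.length → Fin 6 → ℝ} (ha : Pos D a)
    (k : Fin D.length) : a k 1 = 0 ↔ a k 4 = 0 := by
  rw [pos_zero hV ha, pos_zero hV ha]; rfl

theorem pos_z25 {D : List Pc} (hV : Val D 1) {a : Fin D.length → Fin 6 → ℝ} (ha : Pos D a)
    (k : Fin D.length) : a k 2 = 0 ↔ a k 5 = 0 := by
  rw [pos_zero hV ha, pos_zero hV ha]; rfl

theorem pos_n12 {D : List Pc} (hV : Val D 1) {a : Fin D.length → Fin 6 → ℝ} (ha : Pos D a)
    (k : Fin D.length) : ¬ (a k 1 = 0 ∧ a k 2 = 0) := by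
  rintro ⟨h1, h2⟩
  exact Out_13 hV k ⟨(pos_zero hV ha k 1).mp h1, (pos_zero hV ha k 2).mp h2⟩

theorem pos_s1 {D : List Pc} {a : Fin D.length → Fin 6 → ℝ} (ha : Pos D a)
    (k : Fin D.length) : a k 0 + a k 1 + a k 2 = 1 / 2 := ha.half k

theorem pos_s2 {D : List Pc} {a : Fin D.length → Fin 6 → ℝ} (ha : Pos D a)
    (k : Fin D.length) : a k 3 + a k 4 + a k 5 = 1 / 2 := by
  have h1 := ((Pool.Agent.Q237.FAL.task_SO.1 ℝ D a [0, 0] 1).mp ha.sol).1 k
  have h2 := ha.half k
  have h3 : n2 (a k) = a k 3 + a k 4 + a k 5 := rfl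
  rw [← h3]
  linarith

/-! ### the number of the brackets -/

theorem bf_apply_true {R : Type} (x : Fin 6 → R) : bf true x = x := rfl

theorem bf_apply_false {R : Type} (x : Fin 6 → R) : bf false x = ![x 0, x 2, x 1, x 3, x 5, x 4] :=
  rfl

/-- the number of the brackets of one region -/
theorem na_eq {x : Fin 6 → ℝ} {β : Bool} (nn : ∀ i, 0 ≤ x i) (s1 : x 0 + x 1 + x 2 = 1 / 2)
    (s2 : x 3 + x 4 + x 5 = 1 / 2) (z14 : x 1 = 0 ↔ x 4 = 0) (z25 : x 2 = 0 ↔ x 5 = 0)
    (n12 : ¬ (x 1 = 0 ∧ x 2 = 0)) (hβ : β = true ↔ x 1 ≤ x 2) :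
    na (bf β x) = ∑ i, if x i ≠ 0 ∧ x i ≠ 1 / 2 then 1 else 0 := by
  classical
  have h0 := nn 0
  have h1 := nn 1
  have h2 := nn 2
  have h3 := nn 3
  have h4 := nn 4
  have h5 := nn 5
  have a0 : x 0 ≠ 1 / 2 := by
    intro h
    exact n12 ⟨by linarith, by linarith⟩
  have a3 : x 3 ≠ 1 / 2 := by
    intro h
    exact n12 ⟨z14.mpr (by linarith), z25.mpr (by linarith)⟩
  have key : ∀ (y z : ℝ), (z = 1 / 2 ↔ y = 0) → (if y = 0 then (0 : ℕ) else 1) =
      if z ≠ 1 / 2 then 1 else 0 := by
    intro y z h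
    by_cases hy : y = 0
    · rw [if_pos hy, if_neg (not_not.mpr (h.mpr hy))]
    · rw [if_neg hy, if_pos (fun hz => hy (h.mp hz))]
  have e0 : ∀ y : ℝ, y ≠ 1 / 2 → (if y = 0 then (0 : ℕ) else 1) =
      if y ≠ 0 ∧ y ≠ 1 / 2 then 1 else 0 := by
    intro y hy
    by_cases h : y = 0
    · rw [if_pos h, if_neg (fun h' => h'.1 h)]
    · rw [if_neg h, if_pos ⟨h, hy⟩]
  have e1 : ∀ y : ℝ, y ≠ 0 → (if 1 / 2 - y = 0 then (0 : ℕ) else 1) =
      if y ≠ 0 ∧ y ≠ 1 / 2 then 1 else 0 := by
    intro y hy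
    by_cases h : y = 1 / 2
    · rw [if_pos (by linarith), if_neg (fun h' => h'.2 h)]
    · rw [if_neg (fun h' => h (by linarith)), if_pos ⟨hy, h⟩]
  unfold na
  rw [Fin.sum_univ_six, Fin.sum_univ_six]
  cases β with
  | true =>
    have hle : x 1 ≤ x 2 := hβ.mp rfl
    have b2 : x 2 ≠ 0 := by
      intro h
      exact n12 ⟨by linarith, h⟩
    have b5 : x 5 ≠ 0 := fun h => b2 (z25.mpr h)
    have c1 : x 1 ≠ 1 / 2 := by
      intro h
      exact b2 (by linarith)
    have c4 : x 4 ≠ 1 / 2 := by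
      intro h
      exact b5 (by linarith)
    show (if x 0 = 0 then 0 else 1) + (if x 1 = 0 then 0 else 1) + (if 1 / 2 - x 2 = 0 then 0 else 1) +
      (if x 3 = 0 then 0 else 1) + (if x 4 = 0 then 0 else 1) +
      (if 1 / 2 - x 5 = 0 then 0 else 1) = _
    rw [e0 _ a0, e0 _ c1, e1 _ b2, e0 _ a3, e0 _ c4, e1 _ b5]
  | false =>
    have hle : ¬ x 1 ≤ x 2 := fun h => by
      have := hβ.mpr h
      exact absurd this (by decide)
    have b1 : x 1 ≠ 0 := by
      intro h
      exact hle (by linarith)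
    have b4 : x 4 ≠ 0 := fun h => b1 (z14.mpr h)
    have c2 : x 2 ≠ 1 / 2 := by
      intro h
      exact b1 (by linarith)
    have c5 : x 5 ≠ 1 / 2 := by
      intro h
      exact b4 (by linarith)
    show (if x 0 = 0 then 0 else 1) + (if x 2 = 0 then 0 else 1) + (if 1 / 2 - x 1 = 0 then 0 else 1) +
      (if x 3 = 0 then 0 else 1) + (if x 5 = 0 then 0 else 1) +
      (if 1 / 2 - x 4 = 0 then 0 else 1) = _
    rw [e0 _ a0, e0 _ c2, e1 _ b1, e0 _ a3, e0 _ c5, e1 _ b4]
    ring

theorem nA_eq {D : List Pc} (hV : Val D 1) {a : Fin D.length → Fin 6 → ℝ} (ha : Pos D a)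
    {β : Fin D.length → Bool} {d : ℕ} {Y : Nw D.length d} (hY : NetOf D a β Y) :
    Y.nA = nV a := by
  classical
  have h1 : Y.nA = ∑ s, ∑ i, if a s i ≠ 0 ∧ a s i ≠ 1 / 2 then 1 else 0 := by
    unfold Nw.nA
    refine Finset.sum_congr rfl fun s _ => ?_
    rw [hY.al s]
    exact na_eq (ha.nonneg s) (pos_s1 ha s) (pos_s2 ha s) (pos_z14 hV ha s) (pos_z25 hV ha s)
      (pos_n12 hV ha s) (hY.be s)
  rw [h1]
  unfold nV
  rw [Nat.card_eq_fintype_card, Fintype.card_subtype, Finset.card_filter,
    ← Finset.univ_product_univ, Finset.sum_product]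

/-! ### the lattice -/

/-- two directions which do not change the corners -/
def kv (x y : ℤ) : Fin 6 → ℤ := ![0, x, y, 0, -x, -y]

theorem cor_kv (β : Bool) (x y : ℤ) : cor (bf β (kv x y)) = 0 := by
  cases β
  · funext j
    fin_cases j
    · rfl
    · show y + -y = 0
      ring
    · rfl
    · show x + -x = 0
      ring
  · funext j
    fin_cases j
    · rfl
    · show x + -x = 0
      ring
    · rfl
    · show y + -y = 0
      ring

theorem cv_kv (β : Bool) (x y : ℤ) : cv β (bf β (kv x y)) = 0 := by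
  cases β
  · funext j
    fin_cases j
    · rfl
    · show x + -x = 0
      ring
    · rfl
  · funext j
    fin_cases j
    · rfl
    · show x + -x = 0
      ring
    · rfl

theorem cv_add (β : Bool) (x y : Fin 6 → ℤ) (i : Fin 3) :
    cv β (x + y) i = cv β x i + cv β y i := by
  cases β <;> fin_cases i
  · rfl
  · show x 2 + y 2 + (x 5 + y 5) = x 2 + x 5 + (y 2 + y 5)
    ring
  · rfl
  · rfl
  · show x 1 + y 1 + (x 4 + y 4) = x 1 + x 4 + (y 1 + y 4)
    ring
  · rfl

theorem cv_smul (β : Bool) (r : ℤ) (x : Fin 6 → ℤ) (i : Fin 3) :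
    cv β (r • x) i = r * cv β x i := by
  cases β <;> fin_cases i
  · rfl
  · show r * x 2 + r * x 5 = r * (x 2 + x 5)
    ring
  · rfl
  · rfl
  · show r * x 1 + r * x 4 = r * (x 1 + x 4)
    ring
  · rfl

theorem cv_sum {ι : Type} (s : Finset ι) (β : Bool) (t : ι → ℤ) (x : ι → Fin 6 → ℤ) (i : Fin 3) :
    cv β (∑ j ∈ s, t j • x j) i = ∑ j ∈ s, t j * cv β (x j) i := by
  classical
  induction s using Finset.induction_on with
  | empty =>
    rw [Finset.sum_empty, Finset.sum_empty]
    cases β <;> fin_cases i <;> rfl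
  | insert j s hj ih =>
    rw [Finset.sum_insert hj, Finset.sum_insert hj, cv_add, cv_smul, ih]

theorem bf_kv_add (β : Bool) (x y x' y' : ℤ) :
    bf β (kv (x + x') (y + y')) = bf β (kv x y) + bf β (kv x' y') := by
  cases β
  · funext j
    fin_cases j
    · rfl
    · rfl
    · rfl
    · rfl
    · show -(y + y') = -y + -y'
      ring
    · show -(x + x') = -x + -x'
      ring
  · funext j
    fin_cases j
    · rfl
    · rfl
    · rfl
    · rfl
    · show -(x + x') = -x + -x'
      ring
    · show -(y + y') = -y + -y'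
      ring

theorem bf_kv_smul (β : Bool) (r x y : ℤ) :
    bf β (kv (r * x) (r * y)) = r • bf β (kv x y) := by
  cases β
  · funext j
    fin_cases j
    · show (0 : ℤ) = r * 0
      ring
    · rfl
    · rfl
    · show (0 : ℤ) = r * 0
      ring
    · show -(r * y) = r * -y
      ring
    · show -(r * x) = r * -x
      ring
  · funext j
    fin_cases j
    · show (0 : ℤ) = r * 0
      ring
    · rfl
    · rfl
    · show (0 : ℤ) = r * 0
      ring
    · show -(r * x) = r * -x
      ring
    · show -(r * y) = r * -y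
      ring

/-- a vector with vanishing corners -/
theorem eq_kv {β : Bool} {x : Fin 6 → ℤ} (h : ∀ i, cv β x i = 0) (hs : n1 x + n2 x = 0) :
    x = bf β (kv (if β then x 1 else x 2) (if β then x 2 else x 1)) := by
  have h0 : x 0 = 0 := h 0
  have h2 : x 3 = 0 := h 2
  have hs' : x 0 + x 1 + x 2 + (x 3 + x 4 + x 5) = 0 := hs
  cases β with
  | true =>
    have h1 : x 1 + x 4 = 0 := h 1
    funext j
    fin_cases j
    · exact h0
    · rfl
    · rfl
    · exact h2
    · show x 4 = -x 1
      linarith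
    · show x 5 = -x 2
      linarith
  | false =>
    have h1 : x 2 + x 5 = 0 := h 1
    funext j
    fin_cases j
    · exact h0
    · rfl
    · rfl
    · exact h2
    · show x 4 = -x 1
      linarith
    · show x 5 = -x 2
      linarith

/-- the summation index of a region as a function of the variables -/
noncomputable def Jz {c d : ℕ} (Y : Nw c d) (u : Y.Ix → ℤ) (s : Fin c) : ℤ :=
  open Classical in if h : Y.α s 1 ≠ 0 then u (.inr (.inl ⟨s, h⟩)) else 0

/-- the parametrization of the lattice -/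
noncomputable def Ph {c d : ℕ} (Y : Nw c d) (β : Fin c → Bool) (δ : Fin d → Fin c → Fin 6 → ℤ) :
    (Y.Ix → ℤ) →ₗ[ℤ] (Fin c → Fin 6 → ℤ) where
  toFun u := fun s => (∑ j, u (.inl j) • δ j s) + bf (β s) (kv (Jz Y u s) (u (.inr (.inr s))))
  map_add' u v := by
    funext s
    have hJ : Jz Y (u + v) s = Jz Y u s + Jz Y v s := by
      unfold Jz
      split_ifs <;> simp
    show (∑ j, (u (.inl j) + v (.inl j)) • δ j s) + bf (β s) (kv (Jz Y (u + v) s)
      (u (.inr (.inr s)) + v (.inr (.inr s)))) = _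
    rw [hJ, bf_kv_add]
    show _ = (∑ j, u (.inl j) • δ j s) + bf (β s) (kv (Jz Y u s) (u (.inr (.inr s)))) +
      ((∑ j, v (.inl j) • δ j s) + bf (β s) (kv (Jz Y v s) (v (.inr (.inr s)))))
    simp only [add_smul, Finset.sum_add_distrib]
    abel
  map_smul' r u := by
    funext s
    have hJ : Jz Y (r • u) s = r * Jz Y u s := by
      unfold Jz
      split_ifs <;> simp
    show (∑ j, (r * u (.inl j)) • δ j s) + bf (β s) (kv (Jz Y (r • u) s)
      (r * u (.inr (.inr s)))) = _
    rw [hJ, bf_kv_smul]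
    show _ = r • ((∑ j, u (.inl j) • δ j s) + bf (β s) (kv (Jz Y u s) (u (.inr (.inr s)))))
    rw [smul_add, Finset.smul_sum]
    simp only [mul_smul]

theorem Ph_apply {c d : ℕ} (Y : Nw c d) (β : Fin c → Bool) (δ : Fin d → Fin c → Fin 6 → ℤ)
    (u : Y.Ix → ℤ) (s : Fin c) : Ph Y β δ u s =
      (∑ j, u (.inl j) • δ j s) + bf (β s) (kv (Jz Y u s) (u (.inr (.inr s)))) := rfl

theorem cv_Ph {c d : ℕ} (Y : Nw c d) (β : Fin c → Bool) (δ : Fin d → Fin c → Fin 6 → ℤ)
    (hδ : ∀ j s, Y.E j s = cv (β s) (δ j s)) (u : Y.Ix → ℤ) (s : Fin c) (i : Fin 3) :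
    cv (β s) (Ph Y β δ u s) i = ∑ j, u (.inl j) * Y.E j s i := by
  rw [Ph_apply, cv_add, cv_sum, cv_kv]
  simp only [hδ, Pi.zero_apply, add_zero]

theorem Jz_zero {c d : ℕ} (Y : Nw c d) {u : Y.Ix → ℤ} (h : ∀ s, Jz Y u s = 0)
    (q : {s : Fin c // Y.α s 1 ≠ 0}) : u (.inr (.inl q)) = 0 := by
  have := h q.1
  unfold Jz at this
  rw [dif_pos q.2] at this
  exact this

theorem Ph_inj {c d : ℕ} (Y : Nw c d) (β : Fin c → Bool) (δ : Fin d → Fin c → Fin 6 → ℤ)
    (hδ : ∀ j s, Y.E j s = cv (β s) (δ j s))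
    (inj : ∀ t : Fin d → ℝ, (∀ s i, ∑ j, t j * Y.E j s i = 0) → t = 0) :
    Function.Injective (Ph Y β δ) := by
  rw [← LinearMap.ker_eq_bot, LinearMap.ker_eq_bot']
  intro u hu
  have h1 : ∀ j, u (.inl j) = 0 := by
    have h2 := inj (fun j => (u (.inl j) : ℝ)) (fun s i => by
      have h3 := cv_Ph Y β δ hδ u s i
      rw [hu] at h3
      have h4 : cv (β s) ((0 : Fin c → Fin 6 → ℤ) s) i = 0 := by
        cases β s <;> fin_cases i <;> rfl
      rw [h4] at h3
      exact_mod_cast h3.symm)
    intro j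
    have := congrFun h2 j
    simpa using this
  have h5 : ∀ s, bf (β s) (kv (Jz Y u s) (u (.inr (.inr s)))) = 0 := by
    intro s
    have h6 := congrFun hu s
    rw [Ph_apply] at h6
    simp only [h1, zero_smul, Finset.sum_const_zero, zero_add] at h6
    exact h6
  have h7 : ∀ s, Jz Y u s = 0 ∧ u (.inr (.inr s)) = 0 := by
    intro s
    have h8 := h5 s
    cases hb : β s with
    | true =>
      rw [hb] at h8
      exact ⟨congrFun h8 1, congrFun h8 2⟩
    | false =>
      rw [hb] at h8
      exact ⟨congrFun h8 2, congrFun h8 1⟩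
  funext q
  rcases q with j | q | s
  · exact h1 j
  · exact Jz_zero Y (fun s => (h7 s).1) q
  · exact (h7 s).2

theorem task_NR : S_NR := by
  classical
  intro D hV hP hD a hMx d β Y hY
  have ha : Pos D a := hMx.1
  obtain ⟨a0, ha0, hq0⟩ := hY.q0
  have hSO := Pool.Agent.Q237.FAL.task_SO
  set L := lat hSO D a0 ha0.1 with hL
  have hlat : IsLat D L := fun δ => Iff.rfl
  have h1 := Pool.Agent.Q299.FAL.task_DIM hSO Pool.Agent.Q237.FAL.task_SUR
    Pool.Agent.Q237.FAL.task_NC D hV hP hD L hlat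
  have h2 := Pool.Agent.Q299.FAL.task_CN Pool.Agent.Q237.FAL.task_OZ D hV hP hD a ha
  have h3 := nA_eq hV ha hY
  choose δ hδS hδE using hY.E1
  have hin := Ph_inj Y β δ hδE hY.inj
  -- the outer corners
  have hout1 : ∀ s, Y.α s 1 = 0 → ∀ x y : ℤ, Out D 1 s (c6 (if β s then 1 else 2)) := by
    intro s hs _ _
    rw [hY.al s] at hs
    cases hb : β s with
    | true =>
      rw [hb] at hs
      exact (pos_zero hV ha s 1).mp hs
    | false =>
      rw [hb] at hs
      exact (pos_zero hV ha s 2).mp hs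
  have hin1 : ∀ s, Y.α s 1 ≠ 0 → ¬ Out D 1 s (c6 (if β s then 1 else 2)) := by
    intro s hs
    rw [hY.al s] at hs
    cases hb : β s with
    | true =>
      rw [hb] at hs
      exact fun h => hs ((pos_zero hV ha s 1).mpr h)
    | false =>
      rw [hb] at hs
      exact fun h => hs ((pos_zero hV ha s 2).mpr h)
  have hin2 : ∀ s, ¬ Out D 1 s (c6 (if β s then 2 else 1)) := by
    intro s
    cases hb : β s with
    | true =>
      intro h
      have h4 := (pos_zero hV ha s 2).mpr h
      have h5 := (hY.be s).mp hb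
      exact pos_n12 hV ha s ⟨le_antisymm (by linarith) (ha.nonneg s 1), h4⟩
    | false =>
      intro h
      have h4 := (pos_zero hV ha s 1).mpr h
      have h5 : a s 1 ≤ a s 2 := by rw [h4]; exact ha.nonneg s 2
      have h6 := (hY.be s).mpr h5
      rw [hb] at h6
      exact absurd h6 (by decide)
  have hzero : Sol D (0 : Fin D.length → Fin 6 → ℤ) [0, 0] 0 := by
    have := sol_smul hSO 0 ha0.1
    simpa using this
  have hrange : LinearMap.range (Ph Y β δ) = L := by
    apply le_antisymm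
    · rintro _ ⟨u, rfl⟩
      have e1 : Ph Y β δ u = (∑ j, u (.inl j) • δ j) +
          fun s => bf (β s) (kv (Jz Y u s) (u (.inr (.inr s)))) := by
        funext s
        rw [Ph_apply, Pi.add_apply, Finset.sum_apply]
        rfl
      rw [e1]
      refine L.add_mem (L.sum_mem fun j _ => L.smul_mem _ (hδS j)) ?_
      refine ⟨Sol_cor D 0 _ _ _ (fun k => ?_) hzero, ?_⟩
      · rw [cor_kv]
        funext j
        fin_cases j <;> rfl
      · intro k i ho
        have hJ : Out D 1 k (c6 (if β k then 1 else 2)) → Jz Y u k = 0 := by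
          intro h
          unfold Jz
          rw [dif_neg]
          intro h'
          exact hin1 k h' h
        have h2' := hin2 k
        show bf (β k) (kv (Jz Y u k) (u (.inr (.inr k)))) i = 0
        cases hb : β k with
        | true =>
          rw [hb] at hJ h2'
          fin_cases i
          · rfl
          · exact hJ ho
          · exact absurd ho h2'
          · rfl
          · show -(Jz Y u k) = 0
            rw [hJ ho]; rfl
          · exact absurd ho h2'
        | false =>
          rw [hb] at hJ h2'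
          fin_cases i
          · rfl
          · exact absurd ho h2'
          · exact hJ ho
          · rfl
          · exact absurd ho h2'
          · show -(Jz Y u k) = 0
            rw [hJ ho]; rfl
    · intro x hx
      obtain ⟨t, ht, -⟩ := hY.E2 x hx
      set x' : Fin D.length → Fin 6 → ℤ := x - ∑ j, t j • δ j with hx'
      have hx'L : x' ∈ L := L.sub_mem hx (L.sum_mem fun j _ => L.smul_mem _ (hδS j))
      have hx'S : So D x' 0 := hx'L
      have hcv : ∀ s i, cv (β s) (x' s) i = 0 := by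
        intro s i
        have e1 : x' s = x s + (-1 : ℤ) • ∑ j, t j • δ j s := by
          rw [hx', Pi.sub_apply, Finset.sum_apply, neg_one_smul, sub_eq_add_neg]
          rfl
        rw [e1, cv_add, cv_smul, cv_sum, ht s i]
        simp only [hδE]
        ring
      have hsum := ((hSO.1 ℤ D x' [0, 0] 0).mp hx'S.1).1
      have hk := fun s => eq_kv (hcv s) (hsum s)
      refine ⟨fun q => match q with
        | .inl j => t j
        | .inr (.inl q) => if β q.1 then x' q.1 1 else x' q.1 2
        | .inr (.inr s) => if β s then x' s 2 else x' s 1, ?_⟩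
      funext s
      rw [Ph_apply]
      have hJ : Jz Y (fun q => match q with
        | .inl j => t j
        | .inr (.inl q) => if β q.1 then x' q.1 1 else x' q.1 2
        | .inr (.inr s) => if β s then x' s 2 else x' s 1) s = if β s then x' s 1 else x' s 2 := by
        unfold Jz
        by_cases h : Y.α s 1 ≠ 0
        · rw [dif_pos h]
        · rw [dif_neg h]
          have ho := hout1 s (not_not.mp h) 0 0
          cases hb : β s with
          | true =>
            rw [hb] at ho
            exact (hx'S.2 s 1 ho).symm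
          | false =>
            rw [hb] at ho
            exact (hx'S.2 s 2 ho).symm
      rw [hJ]
      show (∑ j, t j • δ j s) + bf (β s) (kv (if β s then x' s 1 else x' s 2)
        (if β s then x' s 2 else x' s 1)) = x s
      rw [← hk s, hx', Pi.sub_apply, Finset.sum_apply]
      show (∑ j, t j • δ j s) + (x s - ∑ j, t j • δ j s) = x s
      abel
  have hrank : Module.finrank ℤ L = Fintype.card Y.Ix := by
    have e1 := (LinearEquiv.ofInjective (Ph Y β δ) hin).finrank_eq
    rw [hrange] at e1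
    rw [← e1]
    exact Module.finrank_fintype_fun_eq_card ℤ
  have e2 : Fintype.card Y.Ix + 2 * D.length = Y.nA + 3 := by
    rw [← hrank, h3]
    omega
  exact e2

end Pool.Agent.Q261.HT
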